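import Mathlib
import Pool.Agent.VM5.Stmts

/-!
# Modules LSG and WD1 of the quintic Weyl sum squad
-/

set_option autoImplicit false

namespace Pool.Agent.VM5.H21

open Pool.Agent.Helper69_Weyl (ee)
open Pool.Agent.VM (Nr)

/-- LSG: the large sieve inequality for an arbitrary index set -/
theorem lsg (l : ℕ) (lsa : VM.LsaStmt l) : LsgStmt l := by
  intro ε hε
  obtain ⟨C, hC, H⟩ := lsa ε hε
  refine ⟨C, hC, ?_⟩
  intro ι e he K hK P θ lo hi hlo hhi
  have hθ : ∀ i, Function.extend e θ (fun _ _ => 0) (e i) = θ i := fun i => he.extend_apply _ _ i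
  have hl : ∀ i, Function.extend e lo (fun _ => 0) (e i) = lo i := fun i => he.extend_apply _ _ i
  have hh : ∀ i, Function.extend e hi (fun _ => 0) (e i) = hi i := fun i => he.extend_apply _ _ i
  have h1 := H K hK (P.map ⟨e, he⟩) (Function.extend e θ (fun _ _ => 0))
    (Function.extend e lo (fun _ => 0)) (Function.extend e hi (fun _ => 0))
    (by
      intro p hp
      rw [Finset.mem_map] at hp
      obtain ⟨i, hi1, rfl⟩ := hp
      simp only [Function.Embedding.coeFn_mk]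
      rw [hl]
      exact hlo i hi1)
    (by
      intro p hp
      rw [Finset.mem_map] at hp
      obtain ⟨i, hi1, rfl⟩ := hp
      simp only [Function.Embedding.coeFn_mk]
      rw [hh]
      exact hhi i hi1)
  rw [Finset.sum_map, Finset.card_map] at h1
  simp only [Function.Embedding.coeFn_mk, hθ, hl, hh] at h1
  have hc : Nat.card {v : (ℕ × ℤ) × (ℕ × ℤ) // v.1 ∈ P.map ⟨e, he⟩ ∧ v.2 ∈ P.map ⟨e, he⟩ ∧
      ∀ j : Fin l, Nr (Function.extend e θ (fun _ _ => 0) v.1 j -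
        Function.extend e θ (fun _ _ => 0) v.2 j) (1 / (K : ℝ) ^ ((j : ℕ) + 1))} =
      Nat.card {v : ι × ι // v.1 ∈ P ∧ v.2 ∈ P ∧
        ∀ j : Fin l, Nr (θ v.1 j - θ v.2 j) (1 / (K : ℝ) ^ ((j : ℕ) + 1))} := by
    symm
    refine Nat.card_eq_of_bijective (fun v => ⟨(e v.1.1, e v.1.2),
      Finset.mem_map_of_mem _ v.2.1, Finset.mem_map_of_mem _ v.2.2.1, ?_⟩) ⟨?_, ?_⟩
    · intro j
      simp only [hθ]
      exact v.2.2.2 j
    · intro v w hvw
      have h2 := congrArg Subtype.val hvw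
      simp only [Prod.mk.injEq] at h2
      exact Subtype.ext (Prod.ext (he h2.1) (he h2.2))
    · rintro ⟨⟨x, y⟩, hx, hy, hxy⟩
      rw [Finset.mem_map] at hx hy
      obtain ⟨i, hi1, rfl⟩ := hx
      obtain ⟨j, hj1, rfl⟩ := hy
      refine ⟨⟨(i, j), hi1, hj1, ?_⟩, rfl⟩
      intro k
      have h3 := hxy k
      simp only [Function.Embedding.coeFn_mk, hθ] at h3
      exact h3
  rw [hc] at h1
  exact h1

/-- the squared modulus of a sum, grouped by the difference of the indices -/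
theorem sq_sum (a : ℤ → ℂ) (N : ℕ) :
    ‖∑ n ∈ Finset.Icc (1 : ℤ) (N : ℤ), a n‖ ^ 2 = (∑ n ∈ Finset.Icc (1 : ℤ) (N : ℤ), ‖a n‖ ^ 2) +
      2 * (∑ h ∈ Finset.Icc 1 N, ∑ n ∈ Finset.Icc (1 : ℤ) ((N : ℤ) - (h : ℤ)),
        a (n + (h : ℤ)) * (starRingEnd ℂ) (a n)).re := by
  induction N with
  | zero => simp
  | succ N ih =>
    have e1 : Finset.Icc (1 : ℤ) ((N + 1 : ℕ) : ℤ) =
        insert ((N : ℤ) + 1) (Finset.Icc (1 : ℤ) (N : ℤ)) := by
      ext x
      simp only [Finset.mem_Icc, Finset.mem_insert]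
      push_cast
      omega
    have e2 : ((N : ℤ) + 1) ∉ Finset.Icc (1 : ℤ) (N : ℤ) := by
      simp
    have e3 : ∀ h ∈ Finset.Icc 1 N, (∑ n ∈ Finset.Icc (1 : ℤ) (((N + 1 : ℕ) : ℤ) - (h : ℤ)),
        a (n + (h : ℤ)) * (starRingEnd ℂ) (a n)) =
        (∑ n ∈ Finset.Icc (1 : ℤ) ((N : ℤ) - (h : ℤ)), a (n + (h : ℤ)) * (starRingEnd ℂ) (a n)) +
        a ((N : ℤ) + 1) * (starRingEnd ℂ) (a ((N : ℤ) + 1 - (h : ℤ))) := by
      intro h hh
      rw [Finset.mem_Icc] at hh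
      have e4 : Finset.Icc (1 : ℤ) (((N + 1 : ℕ) : ℤ) - (h : ℤ)) =
          insert ((N : ℤ) + 1 - (h : ℤ)) (Finset.Icc (1 : ℤ) ((N : ℤ) - (h : ℤ))) := by
        ext x
        simp only [Finset.mem_Icc, Finset.mem_insert]
        push_cast
        omega
      rw [e4, Finset.sum_insert (by simp), add_comm]
      congr 2
      congr 1
      ring
    have e5 : (∑ h ∈ Finset.Icc 1 N, a ((N : ℤ) + 1) *
        (starRingEnd ℂ) (a ((N : ℤ) + 1 - (h : ℤ)))) =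
        a ((N : ℤ) + 1) * (starRingEnd ℂ) (∑ n ∈ Finset.Icc (1 : ℤ) (N : ℤ), a n) := by
      rw [map_sum, Finset.mul_sum]
      refine Finset.sum_bij (fun h _ => (N : ℤ) + 1 - (h : ℤ)) ?_ ?_ ?_ ?_
      · intro h hh
        rw [Finset.mem_Icc] at hh ⊢
        omega
      · intro h _ h' _ hhh
        have h9 : (N : ℤ) + 1 - (h : ℤ) = (N : ℤ) + 1 - (h' : ℤ) := hhh
        omega
      · intro n hn
        rw [Finset.mem_Icc] at hn
        refine ⟨((N : ℤ) + 1 - n).toNat, ?_, ?_⟩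
        · rw [Finset.mem_Icc]
          omega
        · show (N : ℤ) + 1 - ((((N : ℤ) + 1 - n).toNat : ℕ) : ℤ) = n
          omega
      · intro h _
        rfl
    have e6 : (∑ h ∈ Finset.Icc 1 (N + 1), ∑ n ∈ Finset.Icc (1 : ℤ) (((N + 1 : ℕ) : ℤ) - (h : ℤ)),
        a (n + (h : ℤ)) * (starRingEnd ℂ) (a n)) =
        (∑ h ∈ Finset.Icc 1 N, ∑ n ∈ Finset.Icc (1 : ℤ) ((N : ℤ) - (h : ℤ)),
          a (n + (h : ℤ)) * (starRingEnd ℂ) (a n)) +
        a ((N : ℤ) + 1) * (starRingEnd ℂ) (∑ n ∈ Finset.Icc (1 : ℤ) (N : ℤ), a n) := by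
      rw [Finset.sum_Icc_succ_top (by omega), Finset.sum_congr rfl e3, Finset.sum_add_distrib, e5]
      have e7 : Finset.Icc (1 : ℤ) (((N + 1 : ℕ) : ℤ) - ((N + 1 : ℕ) : ℤ)) = ∅ := by
        rw [sub_self]
        rfl
      rw [e7, Finset.sum_empty, add_zero]
    rw [e6, e1, Finset.sum_insert e2, Finset.sum_insert e2, Complex.add_re, mul_add]
    have e8 : ∀ z w : ℂ, ‖z + w‖ ^ 2 = ‖z‖ ^ 2 + ‖w‖ ^ 2 + 2 * (z * (starRingEnd ℂ) w).re := by
      intro z w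
      rw [← Complex.normSq_eq_norm_sq, ← Complex.normSq_eq_norm_sq, ← Complex.normSq_eq_norm_sq,
        Complex.normSq_add]
    rw [e8, ih]
    ring

/-- WD1: one Weyl step -/
theorem wd1 : Wd1Stmt := by
  intro f N
  have hn : ∀ x : ℝ, ‖ee x‖ = 1 := by
    intro x
    unfold ee
    rw [Complex.norm_exp]
    simp
  have hs : ∀ x y : ℝ, ee x * (starRingEnd ℂ) (ee y) = ee (x - y) := by
    intro x y
    unfold ee
    rw [← Complex.exp_conj, ← Complex.exp_add]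
    congr 1
    have h9 : (starRingEnd ℂ) 2 = 2 := Complex.conj_ofNat 2
    simp only [map_mul, Complex.conj_I, Complex.conj_ofReal, h9, Complex.ofReal_sub]
    ring
  rw [sq_sum (fun n => ee (f n)) N]
  have h1 : (∑ n ∈ Finset.Icc (1 : ℤ) (N : ℤ), ‖ee (f n)‖ ^ 2) = (N : ℝ) := by
    rw [Finset.sum_congr rfl (fun n _ => by rw [hn, one_pow])]
    simp
  rw [h1]
  have h2 : (∑ h ∈ Finset.Icc 1 N, ∑ n ∈ Finset.Icc (1 : ℤ) ((N : ℤ) - (h : ℤ)),
      ee (f (n + (h : ℤ))) * (starRingEnd ℂ) (ee (f n))) =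
      ∑ h ∈ Finset.Icc 1 N, ∑ n ∈ Finset.Icc (1 : ℤ) ((N : ℤ) - (h : ℤ)),
        ee (f (n + (h : ℤ)) - f n) := by
    refine Finset.sum_congr rfl (fun h _ => Finset.sum_congr rfl (fun n _ => hs _ _))
  have h3 : (∑ h ∈ Finset.Icc 1 N, ∑ n ∈ Finset.Icc (1 : ℤ) ((N : ℤ) - (h : ℤ)),
      ee (f (n + (h : ℤ))) * (starRingEnd ℂ) (ee (f n))).re ≤
      ∑ h ∈ Finset.Icc 1 N, ‖∑ n ∈ Finset.Icc (1 : ℤ) ((N : ℤ) - (h : ℤ)),
        ee (f (n + (h : ℤ)) - f n)‖ := by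
    rw [h2]
    exact (Complex.re_le_norm _).trans (norm_sum_le _ _)
  linarith

end Pool.Agent.VM5.H21
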