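import Mathlib
import Pool.Agent.VM5.StmtsB
import Pool.Agent.Helper98_VM5.Ta

/-!
# Module STw of the quintic Weyl sum squad
-/

set_option autoImplicit false

namespace Pool.Agent.VM5.H21

open Pool.Agent.VM5

theorem isCoprime_of_prime_not_dvd' {d u : ℕ} (hd : d.Prime) (h : ¬ d ∣ u) :
    IsCoprime (u : ℤ) (d : ℤ) := by
  rw [Nat.isCoprime_iff_coprime]
  exact ((Nat.Prime.coprime_iff_not_dvd hd).mpr h).symm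

/-- the error terms of the first kind -/
theorem bound1 {N D K d d' Z Z' x y : ℝ} (hK : 0 < K) (hD : 0 < D) (hN0 : 0 ≤ N)
    (hN : N ≤ 5 * D * K) (hd0 : 0 ≤ d) (hd : d ≤ 2 * D) (hd0' : 0 ≤ d') (hd' : d' ≤ 2 * D)
    (hZ : |Z| ≤ 3 * N) (hZ' : |Z'| ≤ 3 * N) (hx : |x| ≤ 1 / K ^ 4) (hy : |y| ≤ 1 / K ^ 3) :
    |6 * d' * Z ^ 2 * x + 3 * (d * y - 2 * Z * x) * (d' * Z + d * Z')| ≤ 8460 * D ^ 3 / K ^ 2 := by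
  have hK4 : 0 < K ^ 4 := by positivity
  have hK3 : 0 < K ^ 3 := by positivity
  have h1 : |6 * d' * Z ^ 2 * x| ≤ 6 * (2 * D) * (3 * N) ^ 2 * (1 / K ^ 4) := by
    rw [abs_mul, abs_mul, abs_mul, abs_of_nonneg (by norm_num : (0 : ℝ) ≤ 6), abs_of_nonneg hd0',
      abs_pow]
    gcongr
  have h2 : |d * y - 2 * Z * x| ≤ 2 * D * (1 / K ^ 3) + 2 * (3 * N) * (1 / K ^ 4) := by
    refine (abs_sub _ _).trans ?_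
    rw [abs_mul, abs_mul, abs_mul, abs_of_nonneg (by norm_num : (0 : ℝ) ≤ 2), abs_of_nonneg hd0]
    gcongr
  have h3 : |d' * Z + d * Z'| ≤ 2 * D * (3 * N) + 2 * D * (3 * N) := by
    refine (abs_add_le _ _).trans ?_
    rw [abs_mul, abs_mul, abs_of_nonneg hd0, abs_of_nonneg hd0']
    gcongr
  have h4 : |3 * (d * y - 2 * Z * x) * (d' * Z + d * Z')| ≤
      3 * (2 * D * (1 / K ^ 3) + 2 * (3 * N) * (1 / K ^ 4)) *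
        (2 * D * (3 * N) + 2 * D * (3 * N)) := by
    rw [abs_mul, abs_mul, abs_of_nonneg (by norm_num : (0 : ℝ) ≤ 3)]
    gcongr
  refine (abs_add_le _ _).trans ((add_le_add h1 h4).trans ?_)
  have h5 : 6 * (2 * D) * (3 * N) ^ 2 * (1 / K ^ 4) +
      3 * (2 * D * (1 / K ^ 3) + 2 * (3 * N) * (1 / K ^ 4)) *
        (2 * D * (3 * N) + 2 * D * (3 * N)) =
      (324 * D * N ^ 2 + 72 * D ^ 2 * N * K) / K ^ 4 := by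
    field_simp
    ring
  rw [h5, div_le_div_iff₀ hK4 (by positivity)]
  have h6 : N ^ 2 ≤ (5 * D * K) ^ 2 := by gcongr
  have h7 : 324 * D * N ^ 2 + 72 * D ^ 2 * N * K ≤ 8460 * D ^ 3 * K ^ 2 := by
    have h8 : 324 * D * N ^ 2 ≤ 324 * D * (5 * D * K) ^ 2 := by gcongr
    have h9 : 72 * D ^ 2 * N * K ≤ 72 * D ^ 2 * (5 * D * K) * K := by gcongr
    nlinarith
  calc (324 * D * N ^ 2 + 72 * D ^ 2 * N * K) * K ^ 2 ≤ 8460 * D ^ 3 * K ^ 2 * K ^ 2 := by gcongr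
    _ = 8460 * D ^ 3 * K ^ 4 := by ring

/-- the error terms of the second kind -/
theorem bound2 {N D K d d' h h' x : ℝ} (hK : 0 < K) (hD : 0 < D) (hN0 : 0 ≤ N)
    (hN : N ≤ 5 * D * K) (hd0 : 0 ≤ d) (hd : d ≤ 2 * D) (hd0' : D ≤ d') (hd' : d' ≤ 2 * D)
    (hh0 : 0 ≤ h) (hh : h ≤ N) (hh0' : 0 ≤ h') (hh' : h' ≤ N) (hx : |x| ≤ 1 / K ^ 4) :
    |(x / 5 * (h ^ 2 * d ^ 8 + h * h' * d ^ 4 * d' ^ 4 + h' ^ 2 * d' ^ 8)) * (10 / d' ^ 10)| ≤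
      38400 / K ^ 2 := by
  have hd'0 : 0 ≤ d' := hD.le.trans hd0'
  have hK4 : 0 < K ^ 4 := by positivity
  have h1 : |h ^ 2 * d ^ 8 + h * h' * d ^ 4 * d' ^ 4 + h' ^ 2 * d' ^ 8| ≤
      768 * N ^ 2 * D ^ 8 := by
    rw [abs_of_nonneg (by positivity)]
    have e1 : h ^ 2 * d ^ 8 ≤ N ^ 2 * (2 * D) ^ 8 := by gcongr
    have e2 : h * h' * d ^ 4 * d' ^ 4 ≤ N * N * (2 * D) ^ 4 * (2 * D) ^ 4 := by gcongr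
    have e3 : h' ^ 2 * d' ^ 8 ≤ N ^ 2 * (2 * D) ^ 8 := by gcongr
    nlinarith
  have h2 : |10 / d' ^ 10| ≤ 10 / D ^ 10 := by
    rw [abs_of_nonneg (by positivity)]
    gcongr
  rw [abs_mul, abs_mul, abs_div, abs_of_nonneg (by norm_num : (0 : ℝ) ≤ 5)]
  calc |x| / 5 * |h ^ 2 * d ^ 8 + h * h' * d ^ 4 * d' ^ 4 + h' ^ 2 * d' ^ 8| * |10 / d' ^ 10|
      ≤ (1 / K ^ 4) / 5 * (768 * N ^ 2 * D ^ 8) * (10 / D ^ 10) := by gcongr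
    _ = 1536 * N ^ 2 / (K ^ 4 * D ^ 2) := by
      field_simp
      ring
    _ ≤ 1536 * (5 * D * K) ^ 2 / (K ^ 4 * D ^ 2) := by gcongr
    _ = 38400 / K ^ 2 := by
      field_simp
      ring

theorem stw (sgw : SgwStmt) : StwStmt := by
  obtain ⟨C, hC, hsig⟩ := sgw
  refine ⟨C + 50000, by positivity, ?_⟩
  intro N D K u t b S hPar hW p hp p' hp' hcl
  obtain ⟨⟨h4, h4r⟩, ⟨σ3, h3, h3b, h3r⟩, ⟨σ2, h2, -, h2r⟩⟩ :=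
    hsig N D K u t b S hPar p hp p' hp' hcl
  have hPar' := hPar
  obtain ⟨hDK, hN5, hD10, hND, hNK, hDN, hDK2, hDu, hgcd, hW1, hW2, hNW, hS⟩ := hPar'
  have hWnn : 0 ≤ WW N u t b := by
    unfold WW
    exact le_trans (Nat.cast_nonneg u) (le_max_left _ _)
  have hK3 : (0 : ℝ) < (K : ℝ) ^ 3 := by
    have : 0 ≤ (C + 50000) * WW N u t b := by positivity
    linarith
  have hK0 : (0 : ℝ) < (K : ℝ) := by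
    rcases Nat.eq_zero_or_pos K with h0 | h0
    · rw [h0] at hK3
      norm_num at hK3
    · exact_mod_cast h0
  have hσ3 : σ3 = 0 := by
    have h1 : C * WW N u t b / (K : ℝ) ^ 3 < 1 := by
      rw [div_lt_one hK3]
      nlinarith [mul_nonneg hC.le hWnn]
    have h5 : |(σ3 : ℝ)| < 1 := lt_of_le_of_lt h3b h1
    have h6 : |σ3| < 1 := by exact_mod_cast h5
    exact Int.abs_lt_one_iff.mp h6
  subst hσ3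
  have hpm := hp
  have hpm' := hp'
  simp only [P2, Finset.mem_product, Finset.mem_Icc] at hpm hpm'
  have hpS : p.2.1 ∈ S := hpm.2.1
  have hpS' : p'.2.1 ∈ S := hpm'.2.1
  have hcd := isCoprime_of_prime_not_dvd' (hS _ hpS).2.2.1 (hS _ hpS).2.2.2
  have hcd' := isCoprime_of_prime_not_dvd' (hS _ hpS').2.2.1 (hS _ hpS').2.2.2
  have hcb : IsCoprime (u : ℤ) b := (Int.isCoprime_iff_gcd_eq_one.mpr hgcd).symm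
  have h3' : (u : ℤ) ∣ m3 p - m3 p' := by
    have : (u : ℤ) ∣ b * (m3 p - m3 p') := by simpa using h3
    exact hcb.dvd_of_dvd_mul_left this
  have hY : (u : ℤ) ∣ 10 * (p'.1 : ℤ) * (p'.2.1 : ℤ) ^ 3 *
      ((p'.2.1 : ℤ) * Z2 p - (p.2.1 : ℤ) * Z2 p') := by
    rw [← H98.y2]
    exact dvd_sub (Dvd.dvd.mul_left h3' _) (Dvd.dvd.mul_left h4 _)
  have hst := H98.star p p'
  have hy2 := H98.y2 p p'
  -- the congruence for `2 σ₂`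
  have hA0 : (u : ℤ) ∣ ((p'.2.1 : ℤ) * (p.2.1 : ℤ) ^ 2) * (2 * σ2 - 10 * b *
      ((p.1 : ℤ) ^ 3 * (p.2.1 : ℤ) ^ 2 - (p'.1 : ℤ) ^ 3 * (p'.2.1 : ℤ) ^ 2)) := by
    have e : ((p'.2.1 : ℤ) * (p.2.1 : ℤ) ^ 2) * (2 * σ2 - 10 * b *
        ((p.1 : ℤ) ^ 3 * (p.2.1 : ℤ) ^ 2 - (p'.1 : ℤ) ^ 3 * (p'.2.1 : ℤ) ^ 2)) =
        - (2 * (p'.2.1 : ℤ) * (p.2.1 : ℤ) ^ 2) * (b * (2 * m2 p - 2 * m2 p') - σ2) +
        (b * (6 * (p'.2.1 : ℤ) * Z2 p ^ 2)) * (m4 p - m4 p') +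
        (b * 3 * ((p'.2.1 : ℤ) * Z2 p + (p.2.1 : ℤ) * Z2 p')) *
          (10 * (p'.1 : ℤ) * (p'.2.1 : ℤ) ^ 3 *
            ((p'.2.1 : ℤ) * Z2 p - (p.2.1 : ℤ) * Z2 p')) := by
      linear_combination b * hst
    rw [e]
    exact dvd_add (dvd_add (Dvd.dvd.mul_left h2 _) (Dvd.dvd.mul_left h4 _))
      (Dvd.dvd.mul_left hY _)
  have hA : (u : ℤ) ∣ 2 * σ2 - 10 * b *
      ((p.1 : ℤ) ^ 3 * (p.2.1 : ℤ) ^ 2 - (p'.1 : ℤ) ^ 3 * (p'.2.1 : ℤ) ^ 2) :=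
    (hcd'.mul_right hcd.pow_right).dvd_of_dvd_mul_left hA0
  refine ⟨2 * σ2, ?_, ?_⟩
  · -- the real half
    set β : ℝ := t - (b : ℝ) / (u : ℝ) with hβ
    have hdS := hS _ hpS
    have hdS' := hS _ hpS'
    have hD0 : (0 : ℝ) < (D : ℝ) := by
      have : 0 < D := by omega
      exact_mod_cast this
    have hN0 : (0 : ℝ) ≤ (N : ℝ) := Nat.cast_nonneg _
    have hNr : (N : ℝ) ≤ 5 * (D : ℝ) * (K : ℝ) := by exact_mod_cast hN5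
    have hd1 : (D : ℝ) ≤ (p.2.1 : ℝ) := by exact_mod_cast hdS.1.le
    have hd2 : (p.2.1 : ℝ) ≤ 2 * (D : ℝ) := by exact_mod_cast hdS.2.1
    have hd1' : (D : ℝ) ≤ (p'.2.1 : ℝ) := by exact_mod_cast hdS'.1.le
    have hd2' : (p'.2.1 : ℝ) ≤ 2 * (D : ℝ) := by exact_mod_cast hdS'.2.1
    have hh : (p.1 : ℝ) ≤ (N : ℝ) := by exact_mod_cast hpm.1.2
    have hh' : (p'.1 : ℝ) ≤ (N : ℝ) := by exact_mod_cast hpm'.1.2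
    have hZ : |(Z2 p : ℝ)| ≤ 3 * (N : ℝ) := by
      have h1 : |Z2 p| ≤ 3 * (N : ℤ) := by
        unfold Z2
        rw [abs_le]
        have h5 := hpm.1
        have h6 := hpm.2.2
        constructor <;> omega
      exact_mod_cast h1
    have hZ' : |(Z2 p' : ℝ)| ≤ 3 * (N : ℝ) := by
      have h1 : |Z2 p'| ≤ 3 * (N : ℤ) := by
        unfold Z2
        rw [abs_le]
        have h5 := hpm'.1
        have h6 := hpm'.2.2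
        constructor <;> omega
      exact_mod_cast h1
    have h3r' : |β * ((m3 p : ℝ) - (m3 p' : ℝ))| ≤ 1 / (K : ℝ) ^ 3 := by
      have h1 := h3r
      rw [Int.cast_zero, zero_div, add_zero] at h1
      exact h1
    have hst' : 2 * (p'.2.1 : ℝ) * (p.2.1 : ℝ) ^ 2 * (2 * (m2 p : ℝ) - 2 * (m2 p' : ℝ)) =
        6 * (p'.2.1 : ℝ) * (Z2 p : ℝ) ^ 2 * ((m4 p : ℝ) - (m4 p' : ℝ)) +
        3 * (10 * (p'.1 : ℝ) * (p'.2.1 : ℝ) ^ 3 *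
          ((p'.2.1 : ℝ) * (Z2 p : ℝ) - (p.2.1 : ℝ) * (Z2 p' : ℝ))) *
          ((p'.2.1 : ℝ) * (Z2 p : ℝ) + (p.2.1 : ℝ) * (Z2 p' : ℝ)) +
        10 * (p'.2.1 : ℝ) * (p.2.1 : ℝ) ^ 2 *
          ((p.1 : ℝ) ^ 3 * (p.2.1 : ℝ) ^ 2 - (p'.1 : ℝ) ^ 3 * (p'.2.1 : ℝ) ^ 2) := by
      exact_mod_cast hst
    have hy2' : (p.2.1 : ℝ) * ((m3 p : ℝ) - (m3 p' : ℝ)) -
        2 * (Z2 p : ℝ) * ((m4 p : ℝ) - (m4 p' : ℝ)) =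
        10 * (p'.1 : ℝ) * (p'.2.1 : ℝ) ^ 3 *
          ((p'.2.1 : ℝ) * (Z2 p : ℝ) - (p.2.1 : ℝ) * (Z2 p' : ℝ)) := by
      exact_mod_cast hy2
    have hm4 : (m4 p : ℝ) - (m4 p' : ℝ) = 5 * (p.1 : ℝ) * (p.2.1 : ℝ) ^ 4 -
        5 * (p'.1 : ℝ) * (p'.2.1 : ℝ) ^ 4 := by
      unfold m4
      push_cast
      ring
    have b1 := bound1 (x := β * ((m4 p : ℝ) - (m4 p' : ℝ))) (y := β * ((m3 p : ℝ) - (m3 p' : ℝ)))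
      hK0 hD0 hN0 hNr (hD0.le.trans hd1) hd2 (hD0.le.trans hd1') hd2' hZ hZ' h4r h3r'
    have b2 := bound2 (x := β * ((m4 p : ℝ) - (m4 p' : ℝ))) (h := (p.1 : ℝ)) (h' := (p'.1 : ℝ))
      hK0 hD0 hN0 hNr (hD0.le.trans hd1) hd2 hd1' hd2' (Nat.cast_nonneg _) hh
      (Nat.cast_nonneg _) hh' h4r
    have hdd : (0 : ℝ) < (p'.2.1 : ℝ) * (p.2.1 : ℝ) ^ 2 := by
      have : 0 < (p.2.1 : ℝ) := lt_of_lt_of_le hD0 hd1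
      have : 0 < (p'.2.1 : ℝ) := lt_of_lt_of_le hD0 hd1'
      positivity
    have hD3 : (D : ℝ) ^ 3 ≤ (p'.2.1 : ℝ) * (p.2.1 : ℝ) ^ 2 := by
      calc (D : ℝ) ^ 3 = (D : ℝ) * (D : ℝ) ^ 2 := by ring
        _ ≤ (p'.2.1 : ℝ) * (p.2.1 : ℝ) ^ 2 := by gcongr
    have hd'0 : (0 : ℝ) < (p'.2.1 : ℝ) := lt_of_lt_of_le hD0 hd1'
    -- the first error term
    set E : ℝ := 6 * (p'.2.1 : ℝ) * (Z2 p : ℝ) ^ 2 * (β * ((m4 p : ℝ) - (m4 p' : ℝ))) +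
      3 * ((p.2.1 : ℝ) * (β * ((m3 p : ℝ) - (m3 p' : ℝ))) -
        2 * (Z2 p : ℝ) * (β * ((m4 p : ℝ) - (m4 p' : ℝ)))) *
        ((p'.2.1 : ℝ) * (Z2 p : ℝ) + (p.2.1 : ℝ) * (Z2 p' : ℝ)) with hE
    have c1 : |E / ((p'.2.1 : ℝ) * (p.2.1 : ℝ) ^ 2)| ≤ 8460 / (K : ℝ) ^ 2 := by
      rw [abs_div, abs_of_pos hdd, div_le_iff₀ hdd]
      refine b1.trans ?_
      calc 8460 * (D : ℝ) ^ 3 / (K : ℝ) ^ 2 = 8460 / (K : ℝ) ^ 2 * (D : ℝ) ^ 3 := by ring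
        _ ≤ 8460 / (K : ℝ) ^ 2 * ((p'.2.1 : ℝ) * (p.2.1 : ℝ) ^ 2) := by gcongr
    have c2 : β * (10 * ((p.1 : ℝ) ^ 3 * (p.2.1 : ℝ) ^ 2 - (p'.1 : ℝ) ^ 3 * (p'.2.1 : ℝ) ^ 2)) =
        2 * (β * (2 * (m2 p : ℝ) - 2 * (m2 p' : ℝ))) -
          E / ((p'.2.1 : ℝ) * (p.2.1 : ℝ) ^ 2) := by
      rw [eq_sub_iff_add_eq, ← eq_sub_iff_add_eq', div_eq_iff hdd.ne', hE]
      linear_combination (-β) * hst' +
        3 * β * ((p'.2.1 : ℝ) * (Z2 p : ℝ) + (p.2.1 : ℝ) * (Z2 p' : ℝ)) * hy2'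
    have c3 : β * (10 * (p.2.1 : ℝ) ^ 2 * ((p'.2.1 : ℝ) ^ 10 - (p.2.1 : ℝ) ^ 10) /
        (p'.2.1 : ℝ) ^ 10) * (p.1 : ℝ) ^ 3 =
        β * (10 * ((p.1 : ℝ) ^ 3 * (p.2.1 : ℝ) ^ 2 - (p'.1 : ℝ) ^ 3 * (p'.2.1 : ℝ) ^ 2)) -
        (β * ((m4 p : ℝ) - (m4 p' : ℝ)) / 5 * ((p.1 : ℝ) ^ 2 * (p.2.1 : ℝ) ^ 8 +
          (p.1 : ℝ) * (p'.1 : ℝ) * (p.2.1 : ℝ) ^ 4 * (p'.2.1 : ℝ) ^ 4 +
          (p'.1 : ℝ) ^ 2 * (p'.2.1 : ℝ) ^ 8)) * (10 / (p'.2.1 : ℝ) ^ 10) := by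
      rw [hm4]
      field_simp
      ring
    have c4 : ((2 * σ2 : ℤ) : ℝ) / (u : ℝ) + β * (10 * (p.2.1 : ℝ) ^ 2 *
        ((p'.2.1 : ℝ) ^ 10 - (p.2.1 : ℝ) ^ 10) / (p'.2.1 : ℝ) ^ 10) * (p.1 : ℝ) ^ 3 =
        2 * (β * (2 * (m2 p : ℝ) - 2 * (m2 p' : ℝ)) + (σ2 : ℝ) / (u : ℝ)) -
          E / ((p'.2.1 : ℝ) * (p.2.1 : ℝ) ^ 2) -
        (β * ((m4 p : ℝ) - (m4 p' : ℝ)) / 5 * ((p.1 : ℝ) ^ 2 * (p.2.1 : ℝ) ^ 8 +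
          (p.1 : ℝ) * (p'.1 : ℝ) * (p.2.1 : ℝ) ^ 4 * (p'.2.1 : ℝ) ^ 4 +
          (p'.1 : ℝ) ^ 2 * (p'.2.1 : ℝ) ^ 8)) * (10 / (p'.2.1 : ℝ) ^ 10) := by
      rw [c3, c2]
      push_cast
      ring
    rw [c4]
    refine (abs_sub _ _).trans ((add_le_add (abs_sub _ _) b2).trans ?_)
    rw [abs_mul, abs_two]
    have c5 : 2 * (2 / (K : ℝ) ^ 2) + 8460 / (K : ℝ) ^ 2 + 38400 / (K : ℝ) ^ 2 ≤
        (C + 50000) / (K : ℝ) ^ 2 := by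
      have c6 : 2 * (2 / (K : ℝ) ^ 2) + 8460 / (K : ℝ) ^ 2 + 38400 / (K : ℝ) ^ 2 =
          46864 / (K : ℝ) ^ 2 := by ring
      rw [c6]
      gcongr
      linarith
    refine le_trans ?_ c5
    gcongr
  · have e : (10 * b * (p.2.1 : ℤ) ^ 2 * ((p'.2.1 : ℤ) ^ 10 - (p.2.1 : ℤ) ^ 10)) *
          (p.1 : ℤ) ^ 3 - 2 * σ2 * (p'.2.1 : ℤ) ^ 10 =
        (- (p'.2.1 : ℤ) ^ 10) * (2 * σ2 - 10 * b *
          ((p.1 : ℤ) ^ 3 * (p.2.1 : ℤ) ^ 2 - (p'.1 : ℤ) ^ 3 * (p'.2.1 : ℤ) ^ 2)) +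
        (-(2 * b) * ((p.1 : ℤ) ^ 2 * (p.2.1 : ℤ) ^ 8 + (p.1 : ℤ) * (p'.1 : ℤ) *
          (p.2.1 : ℤ) ^ 4 * (p'.2.1 : ℤ) ^ 4 + (p'.1 : ℤ) ^ 2 * (p'.2.1 : ℤ) ^ 8)) *
          (m4 p - m4 p') := by
      simp only [m4]; ring
    rw [e]
    exact dvd_add (Dvd.dvd.mul_left hA _) (Dvd.dvd.mul_left h4 _)

end Pool.Agent.VM5.H21
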